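import Pool.Agent.H5.TSD.Defs

/-!
# The common positive eigenvector (M2)
-/

namespace Pool.Agent.H49.TSD

open Finset

variable {V : Type} [Fintype V]

/-- symmetric neighbourhoods give a self-adjoint operator -/
theorem adj_sum (N : V → Finset V) (symm : ∀ u v, u ∈ N v → v ∈ N u) (x y : V → ℝ) :
    ∑ v, (∑ u ∈ N v, x u) * y v = ∑ v, x v * ∑ u ∈ N v, y u := by
  classical
  have h1 : ∀ v, (∑ u ∈ N v, x u) * y v = ∑ u, if u ∈ N v then x u * y v else 0 := by
    intro v
    rw [sum_mul, ← sum_filter, filter_mem_eq_inter, univ_inter]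
  have h2 : ∀ v, x v * ∑ u ∈ N v, y u = ∑ u, if u ∈ N v then x v * y u else 0 := by
    intro v
    rw [mul_sum, ← sum_filter, filter_mem_eq_inter, univ_inter]
  rw [sum_congr rfl fun v _ => h1 v, sum_congr rfl fun v _ => h2 v, sum_comm]
  refine sum_congr rfl fun u _ => sum_congr rfl fun v _ => ?_
  by_cases h : u ∈ N v
  · rw [if_pos h, if_pos (symm u v h)]
  · rw [if_neg h, if_neg fun h' => h (symm v u h')]

/-- commuting neighbourhoods give commuting operators -/
theorem comm_sum [DecidableEq V] (N M : V → Finset V)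
    (comm : ∀ v u, ((N v).filter (fun w => u ∈ M w)).card =
      ((M v).filter (fun w => u ∈ N w)).card) (x : V → ℝ) (v : V) :
    ∑ w ∈ N v, ∑ u ∈ M w, x u = ∑ w ∈ M v, ∑ u ∈ N w, x u := by
  have h : ∀ (A B : V → Finset V), ∑ w ∈ A v, ∑ u ∈ B w, x u =
      ∑ u, (((A v).filter (fun w => u ∈ B w)).card : ℝ) * x u := by
    intro A B
    have h1 : ∀ w, ∑ u ∈ B w, x u = ∑ u, if u ∈ B w then x u else 0 := by
      intro w
      rw [← sum_filter, filter_mem_eq_inter, univ_inter]
    rw [sum_congr rfl fun w _ => h1 w, sum_comm]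
    refine sum_congr rfl fun u _ => ?_
    rw [← sum_filter, sum_const, nsmul_eq_mul]
  rw [h, h]
  exact sum_congr rfl fun u _ => by rw [comm]

theorem exists_eig_abs [DecidableEq V] [Nonempty V] (N M : V → Finset V)
    (symmN : ∀ u v, u ∈ N v → v ∈ N u) (symmM : ∀ u v, u ∈ M v → v ∈ M u)
    (comm : ∀ v u, ((N v).filter (fun w => u ∈ M w)).card =
      ((M v).filter (fun w => u ∈ N w)).card)
    (hconn : ∀ S : Finset V, S.Nonempty → (∀ v ∈ S, ∀ u ∈ N v, u ∈ S) →
      (∀ v ∈ S, ∀ u ∈ M v, u ∈ S) → S = Finset.univ)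
    (d : V → ℝ) (hd : ∀ v, 0 < d v) (h2 : ∀ v, ∑ u ∈ N v, d u = 2 * d v)
    (e : V → ℝ) (he : ∀ v, 0 < e v) (h3 : ∀ v, ∑ u ∈ M v, e u < 2 * e v) :
    ∃ (q : V → ℝ) (lam : ℝ), (∀ v, 0 < q v) ∧ (∀ v, ∑ u ∈ N v, q u = 2 * q v) ∧
      (∀ v, ∑ u ∈ M v, q u = lam * q v) ∧ 0 ≤ lam ∧ lam < 2 := by
  classical
  set K : Set (V → ℝ) := {x | ∀ v, ∑ u ∈ N v, x u = 2 * x v} with hK
  set nrm : (V → ℝ) → ℝ := fun x => ∑ v, x v * x v with hnrm
  set R : (V → ℝ) → ℝ := fun x => ∑ v, x v * ∑ u ∈ M v, x u with hR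
  have nn : ∀ x, 0 ≤ nrm x := fun x => sum_nonneg fun v _ => mul_self_nonneg _
  have nz : ∀ x, nrm x = 0 → x = 0 := by
    intro x hx
    rw [hnrm] at hx
    funext v
    have := (sum_eq_zero_iff_of_nonneg (fun v _ => mul_self_nonneg (x v))).mp hx v (mem_univ v)
    simpa using this
  have Kadd : ∀ x ∈ K, ∀ y ∈ K, ∀ t : ℝ, (fun v => x v + t * y v) ∈ K := by
    intro x hx y hy t v
    simp only [sum_add_distrib, ← mul_sum, hx v, hy v]
    ring
  have Ksmul : ∀ x ∈ K, ∀ t : ℝ, (fun v => t * x v) ∈ K := by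
    intro x hx t v
    simp only [← mul_sum, hx v]
    ring
  have KM : ∀ x ∈ K, (fun v => ∑ u ∈ M v, x u) ∈ K := by
    intro x hx v
    show ∑ w ∈ N v, ∑ u ∈ M w, x u = 2 * ∑ u ∈ M v, x u
    rw [comm_sum N M comm, mul_sum]
    exact sum_congr rfl fun w _ => hx w
  have hdK : d ∈ K := h2
  -- compactness
  have hcompact : IsCompact (K ∩ {x | nrm x = 1}) := by
    apply Metric.isCompact_of_isClosed_isBounded
    · refine IsClosed.inter ?_ ?_
      · rw [hK]
        simp only [Set.ofPred_forall]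
        refine isClosed_iInter fun v => isClosed_eq ?_ ?_
        · exact continuous_finsetSum _ fun u _ => continuous_apply u
        · exact continuous_const.mul (continuous_apply v)
      · refine isClosed_eq ?_ continuous_const
        exact continuous_finsetSum _ fun u _ => (continuous_apply u).mul (continuous_apply u)
    · rw [isBounded_iff_forall_norm_le]
      refine ⟨1, fun x hx => ?_⟩
      rw [pi_norm_le_iff_of_nonneg zero_le_one]
      intro v
      have h5 : x v * x v ≤ 1 := by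
        rw [← (show nrm x = 1 from hx.2)]
        exact single_le_sum (f := fun v => x v * x v) (fun v _ => mul_self_nonneg _)
          (mem_univ v)
      rw [Real.norm_eq_abs]
      have := abs_mul_abs_self (x v)
      nlinarith [abs_nonneg (x v)]
  have hne : (K ∩ {x | nrm x = 1}).Nonempty := by
    have hpos : 0 < nrm d := by
      obtain ⟨v⟩ := ‹Nonempty V›
      exact sum_pos' (fun v _ => mul_self_nonneg _) ⟨v, mem_univ v, mul_pos (hd v) (hd v)⟩
    refine ⟨fun v => (Real.sqrt (nrm d))⁻¹ * d v, Ksmul d hdK _, ?_⟩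
    show ∑ v, ((Real.sqrt (nrm d))⁻¹ * d v) * ((Real.sqrt (nrm d))⁻¹ * d v) = 1
    have h6 : ∀ v, ((Real.sqrt (nrm d))⁻¹ * d v) * ((Real.sqrt (nrm d))⁻¹ * d v) =
        (nrm d)⁻¹ * (d v * d v) := by
      intro v
      have h7 : (Real.sqrt (nrm d))⁻¹ * (Real.sqrt (nrm d))⁻¹ = (nrm d)⁻¹ := by
        rw [← mul_inv, Real.mul_self_sqrt hpos.le]
      rw [← h7]; ring
    rw [sum_congr rfl fun v _ => h6 v, ← mul_sum]
    exact inv_mul_cancel₀ hpos.ne'
  have hRc : Continuous R := by
    refine continuous_finsetSum _ fun v _ => (continuous_apply v).mul ?_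
    exact continuous_finsetSum _ fun u _ => continuous_apply u
  obtain ⟨x0, hx0, hmax⟩ := hcompact.exists_isMaxOn hne hRc.continuousOn
  set lam := R x0 with hlam
  have bound : ∀ y ∈ K, R y ≤ lam * nrm y := by
    intro y hy
    rcases (nn y).eq_or_lt with h0 | h0
    · have : y = 0 := nz y h0.symm
      rw [this]
      simp [hR, hnrm]
    · set s := (Real.sqrt (nrm y))⁻¹ with hs
      have hss : s * s = (nrm y)⁻¹ := by
        rw [hs, ← mul_inv, Real.mul_self_sqrt h0.le]
      have hmem : (fun v => s * y v) ∈ K ∩ {x | nrm x = 1} := by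
        refine ⟨Ksmul y hy s, ?_⟩
        show ∑ v, (s * y v) * (s * y v) = 1
        have h6 : ∀ v, (s * y v) * (s * y v) = (nrm y)⁻¹ * (y v * y v) := by
          intro v
          rw [← hss]; ring
        rw [sum_congr rfl fun v _ => h6 v, ← mul_sum]
        exact inv_mul_cancel₀ h0.ne'
      have h8 := hmax hmem
      have h9 : R (fun v => s * y v) = (nrm y)⁻¹ * R y := by
        show ∑ v, (s * y v) * ∑ u ∈ M v, s * y u = _
        rw [hR]
        simp only [mul_sum]
        refine sum_congr rfl fun v _ => sum_congr rfl fun u _ => ?_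
        rw [← hss]; ring
      have h10 : (nrm y)⁻¹ * R y ≤ lam := by rw [← h9]; exact h8
      rw [inv_mul_le_iff₀ h0] at h10
      linarith
  -- absolute values
  set q : V → ℝ := fun v => |x0 v| with hq
  have hqK : q ∈ K := by
    have g0 : ∀ v, 0 ≤ ∑ u ∈ N v, q u - 2 * q v := by
      intro v
      have : 2 * q v = |∑ u ∈ N v, x0 u| := by
        rw [hx0.1 v, abs_mul, abs_two]
      rw [this, sub_nonneg]
      exact abs_sum_le_sum_abs _ _
    have hsum : ∑ v, (∑ u ∈ N v, q u - 2 * q v) * d v = 0 := by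
      have := adj_sum N symmN q d
      simp only [sub_mul, sum_sub_distrib, this, h2]
      rw [← sum_sub_distrib]
      exact sum_eq_zero fun v _ => by ring
    intro v
    have h11 := (sum_eq_zero_iff_of_nonneg
      (fun v _ => mul_nonneg (g0 v) (hd v).le)).mp hsum v (mem_univ v)
    have h12 : ∑ u ∈ N v, q u - 2 * q v = 0 := by
      rcases mul_eq_zero.mp h11 with h | h
      · exact h
      · exact absurd h (hd v).ne'
    linarith
  have hq1 : nrm q = 1 := by
    rw [← (show nrm x0 = 1 from hx0.2)]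
    exact sum_congr rfl fun v _ => abs_mul_abs_self _
  have hRq : R q = lam := by
    refine le_antisymm (by have := bound q hqK; rw [hq1] at this; linarith) ?_
    refine sum_le_sum fun v _ => ?_
    calc x0 v * ∑ u ∈ M v, x0 u ≤ |x0 v * ∑ u ∈ M v, x0 u| := le_abs_self _
      _ = |x0 v| * |∑ u ∈ M v, x0 u| := abs_mul _ _
      _ ≤ |x0 v| * ∑ u ∈ M v, |x0 u| :=
        mul_le_mul_of_nonneg_left (abs_sum_le_sum_abs _ _) (abs_nonneg _)
  have hlam0 : 0 ≤ lam := by
    rw [← hRq]
    exact sum_nonneg fun v _ => mul_nonneg (abs_nonneg _) (sum_nonneg fun u _ => abs_nonneg _)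
  -- eigenvector equation
  set y : V → ℝ := fun v => ∑ u ∈ M v, q u - lam * q v with hy
  have hyK : y ∈ K := by
    have := Kadd _ (KM q hqK) q hqK (-lam)
    have e1 : (fun v => ∑ u ∈ M v, q u + -lam * q v) = y := by
      funext v; rw [hy]; ring
    rw [← e1]; exact this
  have expR : ∀ t : ℝ, R (fun v => q v + t * y v) =
      R q + 2 * t * ∑ v, y v * ∑ u ∈ M v, q u + t ^ 2 * R y := by
    intro t
    have sy := adj_sum M symmM q y
    show ∑ v, (q v + t * y v) * ∑ u ∈ M v, (q u + t * y u) = _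
    have e2 : ∀ v, (q v + t * y v) * ∑ u ∈ M v, (q u + t * y u) =
        q v * ∑ u ∈ M v, q u + t * (q v * ∑ u ∈ M v, y u) + t * (y v * ∑ u ∈ M v, q u)
          + t ^ 2 * (y v * ∑ u ∈ M v, y u) := by
      intro v
      rw [sum_add_distrib, ← mul_sum]; ring
    rw [sum_congr rfl fun v _ => e2 v, sum_add_distrib, sum_add_distrib, sum_add_distrib,
      ← mul_sum, ← mul_sum, ← mul_sum, ← sy]
    have e3 : ∑ v, (∑ u ∈ M v, q u) * y v = ∑ v, y v * ∑ u ∈ M v, q u :=
      sum_congr rfl fun v _ => mul_comm _ _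
    rw [e3, hR]
    ring
  have expN : ∀ t : ℝ, nrm (fun v => q v + t * y v) =
      nrm q + 2 * t * ∑ v, y v * q v + t ^ 2 * nrm y := by
    intro t
    show ∑ v, (q v + t * y v) * (q v + t * y v) = _
    have e2 : ∀ v, (q v + t * y v) * (q v + t * y v) =
        q v * q v + 2 * t * (y v * q v) + t ^ 2 * (y v * y v) := by
      intro v; ring
    rw [sum_congr rfl fun v _ => e2 v, sum_add_distrib, sum_add_distrib, ← mul_sum, ← mul_sum]
  have hyy : ∑ v, y v * ∑ u ∈ M v, q u - lam * ∑ v, y v * q v = nrm y := by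
    rw [mul_sum, ← sum_sub_distrib]
    refine sum_congr rfl fun v _ => ?_
    rw [hy]; ring
  have hy0 : nrm y = 0 := by
    by_contra hne0
    have hyp : 0 < nrm y := lt_of_le_of_ne (nn y) (Ne.symm hne0)
    have hc : 0 ≤ lam * nrm y - R y := by have := bound y hyK; linarith
    have ineq : ∀ t : ℝ, 2 * t * nrm y ≤ t ^ 2 * (lam * nrm y - R y) := by
      intro t
      have h13 := bound _ (Kadd q hqK y hyK t)
      rw [expR, expN, hRq, hq1] at h13
      have h14 : 2 * t * nrm y = 2 * t * (∑ v, y v * ∑ u ∈ M v, q u)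
          - lam * (2 * t * ∑ v, y v * q v) := by
        rw [← hyy]; ring
      linarith
    set c := lam * nrm y - R y with hcdef
    have hc1 : 0 < c + 1 := by linarith
    -- scale t by nrm y
    have h16 := ineq (nrm y / (c + 1))
    have ht2 : 0 < nrm y / (c + 1) := by positivity
    have h17 : 2 * nrm y ≤ nrm y / (c + 1) * c := by
      have : (nrm y / (c + 1)) * (2 * nrm y) ≤ (nrm y / (c + 1)) * (nrm y / (c + 1) * c) := by
        nlinarith
      exact le_of_mul_le_mul_left this ht2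
    have h18 : nrm y / (c + 1) * c ≤ nrm y := by
      rw [div_mul_eq_mul_div, div_le_iff₀ hc1]
      nlinarith
    linarith
  have hyz := nz y hy0
  have heig : ∀ v, ∑ u ∈ M v, q u = lam * q v := by
    intro v
    have := congrFun hyz v
    simp only [hy, Pi.zero_apply] at this
    linarith
  -- positivity
  have hqpos : ∀ v, 0 < q v := by
    by_contra hcon
    push Not at hcon
    obtain ⟨v0, hv0⟩ := hcon
    have hv0' : q v0 = 0 := le_antisymm hv0 (abs_nonneg _)
    set S := univ.filter (fun v => q v = 0) with hS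
    have hSu : S = univ := by
      refine hconn S ⟨v0, by simp [hS, hv0']⟩ ?_ ?_
      · intro v hv u hu
        have hv' : q v = 0 := by simpa [hS] using hv
        have h19 : ∑ u ∈ N v, q u = 0 := by rw [hqK v, hv']; ring
        have := (sum_eq_zero_iff_of_nonneg (fun u _ => abs_nonneg (x0 u))).mp h19 u hu
        simp only [hS, mem_filter, mem_univ, true_and]
        exact this
      · intro v hv u hu
        have hv' : q v = 0 := by simpa [hS] using hv
        have h19 : ∑ u ∈ M v, q u = 0 := by rw [heig v, hv']; ring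
        have := (sum_eq_zero_iff_of_nonneg (fun u _ => abs_nonneg (x0 u))).mp h19 u hu
        simp only [hS, mem_filter, mem_univ, true_and]
        exact this
    have : nrm q = 0 := by
      refine sum_eq_zero fun v _ => ?_
      have hv : v ∈ S := by rw [hSu]; exact mem_univ v
      have hv' : q v = 0 := by simpa [hS] using hv
      rw [hv']; ring
    rw [hq1] at this
    exact one_ne_zero this
  refine ⟨q, lam, hqpos, hqK, heig, hlam0, ?_⟩
  -- lam < 2
  have h20 := adj_sum M symmM e q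
  have h21 : ∑ v, (∑ u ∈ M v, e u) * q v < ∑ v, (2 * e v) * q v := by
    refine sum_lt_sum_of_nonempty univ_nonempty fun v _ => ?_
    exact mul_lt_mul_of_pos_right (h3 v) (hqpos v)
  have h22 : ∑ v, e v * ∑ u ∈ M v, q u = lam * ∑ v, e v * q v := by
    rw [mul_sum]
    refine sum_congr rfl fun v _ => ?_
    rw [heig v]; ring
  have h23 : ∑ v, (2 * e v) * q v = 2 * ∑ v, e v * q v := by
    rw [mul_sum]
    exact sum_congr rfl fun v _ => by ring
  have h24 : 0 < ∑ v, e v * q v :=
    sum_pos (fun v _ => mul_pos (he v) (hqpos v)) univ_nonempty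
  rw [h20, h22, h23] at h21
  exact lt_of_mul_lt_mul_right h21 h24.le

open Pool.Agent.H15.TSys Pool.Agent.H5.TSD in
/-- (M2) the eigenvector -/
theorem exists_eig [DecidableEq V] [Nonempty V] (G : Sys V) (hG : Good G)
    (hconn : ∀ S : Finset V, S.Nonempty → (∀ v ∈ S, ∀ u ∈ G.N v, u ∈ S) →
      (∀ v ∈ S, ∀ u ∈ G.M v, u ∈ S) → S = Finset.univ)
    (d : V → ℝ) (hd : ∀ v, 0 < d v) (h2 : ∀ v, ∑ u ∈ G.N v, d u = 2 * d v)
    (e : V → ℝ) (he : ∀ v, 0 < e v) (h3 : ∀ v, ∑ u ∈ G.M v, e u < 2 * e v) :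
    ∃ (q : V → ℝ) (lam : ℝ), Eig G q lam := by
  obtain ⟨q, lam, h1, h4, h5, h6, h7⟩ :=
    exists_eig_abs G.N G.M hG.symmN hG.symmM hG.comm hconn d hd h2 e he h3
  exact ⟨q, lam, ⟨h1, h4, h5, h6, h7⟩⟩

end Pool.Agent.H49.TSD
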