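import Mathlib

/-!
# The linear part is quasi-periodic (M1)

For a symmetric `0/1` matrix `A` with a positive vector `d`, `A d = 2 d`, some Chebyshev polynomial
`C n` has `C n (A) = 2`.
-/

namespace Pool.Agent.H49.TSD

open Finset Polynomial

section cheb

/-- `(C (n+m) - 2)(C (n-m) - 2) = (C n - C m)^2` -/
theorem cheb_prod (n m : ℤ) :
    (Chebyshev.C ℤ (n + m) - 2) * (Chebyshev.C ℤ (n - m) - 2) =
      (Chebyshev.C ℤ n - Chebyshev.C ℤ m) ^ 2 := by
  have h1 := Chebyshev.C_mul_C (R := ℤ) (n + m) (n - m)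
  have h2 := Chebyshev.C_mul_C (R := ℤ) n n
  have h3 := Chebyshev.C_mul_C (R := ℤ) m m
  have h4 := Chebyshev.C_mul_C (R := ℤ) n m
  rw [show n + m + (n - m) = n + n by ring, show n + m - (n - m) = m + m by ring] at h1
  rw [sub_self, Chebyshev.C_zero] at h2 h3
  linear_combination h1 - h2 - h3 + 2 * h4

/-- `C a - 2` divides `C (b a) - 2`. -/
theorem cheb_dvd (a : ℤ) (b : ℕ) :
    (Chebyshev.C ℤ a - 2) ∣ (Chebyshev.C ℤ (b * a) - 2) ∧
    (Chebyshev.C ℤ a - 2) ∣ (Chebyshev.C ℤ ((b + 1) * a) - 2) := by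
  induction b with
  | zero => simp
  | succ b ih =>
    refine ⟨by push_cast; exact ih.2, ?_⟩
    have h := Chebyshev.C_mul_C (R := ℤ) a ((b + 1) * a)
    have e : Chebyshev.C ℤ (((b + 1 : ℕ) + 1) * a) - 2 =
        Chebyshev.C ℤ a * (Chebyshev.C ℤ ((b + 1) * a) - 2) + 2 * (Chebyshev.C ℤ a - 2)
          - (Chebyshev.C ℤ (b * a) - 2) := by
      have h1 : Chebyshev.C ℤ (a - (b + 1) * a) = Chebyshev.C ℤ (b * a) := by
        rw [show a - (b + 1) * a = -(b * a) by ring, Chebyshev.C_neg]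
      rw [h1, show a + (b + 1) * a = ((b + 1 : ℕ) + 1) * a by push_cast; ring] at h
      linear_combination -h
    rw [e]
    exact dvd_sub (dvd_add (Dvd.dvd.mul_left ih.2 _) (Dvd.intro_left _ rfl)) ih.1

theorem cheb_sq (n : ℤ) :
    Chebyshev.C ℤ n ^ 2 + (4 - X ^ 2) * Chebyshev.S ℤ (n - 1) ^ 2 = 4 := by
  have h1 := Chebyshev.C_eq_S_sub_X_mul_S (R := ℤ) n
  have h2 := Chebyshev.S_sq_add_S_sq (R := ℤ) (n - 1)
  rw [show n - 1 + 1 = n by ring] at h2
  rw [h1]
  linear_combination 4 * h2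

end cheb

variable {V : Type} [Fintype V] [DecidableEq V]

/-- the adjacency matrix -/
def AM (N : V → Finset V) : Matrix V V ℤ := Matrix.of fun v u => if u ∈ N v then 1 else 0

omit [Fintype V] in
theorem AM_symm {N : V → Finset V} (symm : ∀ u v, u ∈ N v → v ∈ N u) :
    (AM N).transpose = AM N := by
  ext v u
  simp only [AM, Matrix.transpose_apply, Matrix.of_apply]
  by_cases h : u ∈ N v
  · rw [if_pos h, if_pos (symm u v h)]
  · rw [if_neg h, if_neg fun h' => h (symm v u h')]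

theorem aeval_symm {N : V → Finset V} (symm : ∀ u v, u ∈ N v → v ∈ N u) (f : ℤ[X]) :
    (aeval (AM N) f).transpose = aeval (AM N) f := by
  induction f using Polynomial.induction_on' with
  | add f g hf hg => rw [map_add, Matrix.transpose_add, hf, hg]
  | monomial n a =>
    rw [aeval_monomial, Matrix.transpose_mul, Matrix.transpose_pow, AM_symm symm]
    have : (algebraMap ℤ (Matrix V V ℤ) a).transpose = algebraMap ℤ (Matrix V V ℤ) a := by
      rw [Matrix.algebraMap_eq_diagonal, Matrix.diagonal_transpose]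
    rw [this]
    exact (Algebra.commutes a (AM N ^ n)).symm

/-- Schur test -/
theorem schur {N : V → Finset V} (symm : ∀ u v, u ∈ N v → v ∈ N u) (d : V → ℝ)
    (hd : ∀ v, 0 < d v) (h2 : ∀ v, ∑ u ∈ N v, d u = 2 * d v) (y : V → ℝ) :
    ∑ v, (∑ u ∈ N v, y u) ^ 2 ≤ 4 * ∑ v, y v ^ 2 := by
  have h1 : ∀ v, (∑ u ∈ N v, y u) ^ 2 ≤ 2 * d v * ∑ u ∈ N v, y u ^ 2 / d u := by
    intro v
    rw [← h2 v]
    have := Finset.sum_mul_sq_le_sq_mul_sq (N v) (fun u => Real.sqrt (d u))
      (fun u => y u / Real.sqrt (d u))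
    have e1 : ∀ u, Real.sqrt (d u) * (y u / Real.sqrt (d u)) = y u := by
      intro u
      have := Real.sqrt_pos.mpr (hd u)
      field_simp
    have e2 : ∀ u, Real.sqrt (d u) ^ 2 = d u := fun u => Real.sq_sqrt (hd u).le
    have e3 : ∀ u, (y u / Real.sqrt (d u)) ^ 2 = y u ^ 2 / d u := by
      intro u; rw [div_pow, e2]
    simp only [e1, e2, e3] at this
    exact this
  have h3 : ∑ v, 2 * d v * ∑ u ∈ N v, y u ^ 2 / d u = 4 * ∑ v, y v ^ 2 := by
    have h4 : ∀ v, 2 * d v * ∑ u ∈ N v, y u ^ 2 / d u =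
        ∑ u, if u ∈ N v then 2 * d v * (y u ^ 2 / d u) else 0 := by
      intro v
      rw [mul_sum, ← sum_filter, filter_mem_eq_inter, univ_inter]
    rw [sum_congr rfl fun v _ => h4 v, sum_comm, mul_sum]
    refine sum_congr rfl fun u _ => ?_
    have h5 : ∀ v, (if u ∈ N v then 2 * d v * (y u ^ 2 / d u) else 0) =
        (if v ∈ N u then d v else 0) * (2 * (y u ^ 2 / d u)) := by
      intro v
      by_cases h : u ∈ N v
      · rw [if_pos h, if_pos (symm u v h)]; ring
      · rw [if_neg h, if_neg fun h' => h (symm v u h'), zero_mul]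
    rw [sum_congr rfl fun v _ => h5 v, ← sum_mul, ← sum_filter, filter_mem_eq_inter, univ_inter,
      h2 u]
    have := hd u
    field_simp
    ring
  calc ∑ v, (∑ u ∈ N v, y u) ^ 2 ≤ ∑ v, 2 * d v * ∑ u ∈ N v, y u ^ 2 / d u :=
        sum_le_sum fun v _ => h1 v
    _ = _ := h3

theorem schurZ {N : V → Finset V} (symm : ∀ u v, u ∈ N v → v ∈ N u) (d : V → ℤ)
    (hd : ∀ v, 0 < d v) (h2 : ∀ v, ∑ u ∈ N v, d u = 2 * d v) (M : Matrix V V ℤ) (w : V) :
    ∑ v, (AM N * M) v w ^ 2 ≤ 4 * ∑ v, M v w ^ 2 := by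
  have h := schur symm (fun v => (d v : ℝ)) (fun v => by exact_mod_cast hd v)
    (fun v => by exact_mod_cast h2 v) (fun u => (M u w : ℝ))
  have e : ∀ v, (AM N * M) v w = ∑ u ∈ N v, M u w := by
    intro v
    rw [Matrix.mul_apply]
    simp only [AM, Matrix.of_apply, ite_mul, one_mul, zero_mul]
    rw [← sum_filter, filter_mem_eq_inter, univ_inter]
  simp only [e]
  exact_mod_cast h

/-- all entries of `C n (A)` have absolute value at most `2` -/
theorem entry_le {N : V → Finset V} (symm : ∀ u v, u ∈ N v → v ∈ N u) (d : V → ℤ)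
    (hd : ∀ v, 0 < d v) (h2 : ∀ v, ∑ u ∈ N v, d u = 2 * d v) (n : ℤ) (v w : V) :
    (aeval (AM N) (Chebyshev.C ℤ n)) v w ∈ Set.Icc (-2 : ℤ) 2 := by
  set A := AM N with hA
  set D := aeval A (Chebyshev.C ℤ n) with hD
  set F := aeval A (Chebyshev.S ℤ (n - 1)) with hF
  have h1 : D * D + 4 * (F * F) - (A * F) * (A * F) = 4 := by
    have := congrArg (aeval A) (cheb_sq n)
    have e : Chebyshev.C ℤ n ^ 2 + (4 - X ^ 2) * Chebyshev.S ℤ (n - 1) ^ 2 =
        Chebyshev.C ℤ n * Chebyshev.C ℤ n +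
        4 * (Chebyshev.S ℤ (n - 1) * Chebyshev.S ℤ (n - 1)) -
        (X * Chebyshev.S ℤ (n - 1)) * (X * Chebyshev.S ℤ (n - 1)) := by ring
    rw [e, map_sub, map_add, map_mul, map_mul, map_mul, map_mul, map_mul, aeval_X, ← hD, ← hF,
      show aeval A (4 : ℤ[X]) = 4 from map_ofNat _ 4] at this
    exact this
  have sD : D.transpose = D := aeval_symm symm _
  have sF : F.transpose = F := aeval_symm symm _
  have sAF : (A * F).transpose = A * F := by
    have : A * F = aeval A (X * Chebyshev.S ℤ (n - 1)) := by rw [map_mul, aeval_X]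
    rw [this]
    exact aeval_symm symm _
  have sq : ∀ M : Matrix V V ℤ, M.transpose = M → (M * M) w w = ∑ u, M u w ^ 2 := by
    intro M hM
    rw [Matrix.mul_apply]
    refine sum_congr rfl fun u _ => ?_
    have : M w u = M u w := by
      conv_lhs => rw [← hM]
      rfl
    rw [this, sq]
  have h3 : (D * D) w w + 4 * (F * F) w w - ((A * F) * (A * F)) w w = 4 := by
    have := congrFun (congrFun h1 w) w
    have e4 : ∀ M : Matrix V V ℤ, ((4 : Matrix V V ℤ) * M) w w = 4 * M w w := by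
      intro M
      have : (4 : Matrix V V ℤ) = (4 : ℤ) • (1 : Matrix V V ℤ) := by
        ext i j
        simp [Matrix.one_apply, Matrix.ofNat_apply]
      rw [this, Matrix.smul_mul, one_mul, Matrix.smul_apply, smul_eq_mul]
    rw [Matrix.sub_apply, Matrix.add_apply, e4] at this
    rw [this]
    have e5 : (4 : Matrix V V ℤ) w w = 4 := by simp [Matrix.ofNat_apply]
    exact e5
  rw [sq D sD, sq F sF, sq (A * F) sAF] at h3
  have h4 := schurZ symm d hd h2 F w
  have h5 : D v w ^ 2 ≤ ∑ u, D u w ^ 2 :=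
    single_le_sum (f := fun u => D u w ^ 2) (fun u _ => sq_nonneg _) (mem_univ v)
  have h6 : D v w ^ 2 ≤ 4 := by linarith
  constructor
  · nlinarith
  · nlinarith

/-- some `C n (A)` with `n > 0` is `2` -/
theorem exists_cheb_two {N : V → Finset V} (symm : ∀ u v, u ∈ N v → v ∈ N u) (d : V → ℤ)
    (hd : ∀ v, 0 < d v) (h2 : ∀ v, ∑ u ∈ N v, d u = 2 * d v) :
    ∃ n : ℕ, 0 < n ∧ aeval (AM N) (Chebyshev.C ℤ n) = 2 := by
  classical
  set A := AM N with hA
  -- pigeonhole
  obtain ⟨m, n, hmn, he⟩ : ∃ m n : ℕ, m < n ∧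
      aeval A (Chebyshev.C ℤ m) = aeval A (Chebyshev.C ℤ n) := by
    have hfin : (Set.range fun n : ℕ => aeval A (Chebyshev.C ℤ n)).Finite := by
      refine Set.Finite.subset (s := {M : V → V → ℤ | ∀ v, M v ∈ {f : V → ℤ | ∀ w,
        f w ∈ Set.Icc (-2 : ℤ) 2}}) ?_ ?_
      · exact Set.Finite.pi' fun _ => Set.Finite.pi' fun _ => Set.finite_Icc _ _
      · rintro _ ⟨n, rfl⟩ v w
        exact entry_le symm d hd h2 n v w
    have hni : ¬ Function.Injective fun n : ℕ => aeval A (Chebyshev.C ℤ n) := fun hinj =>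
      Set.infinite_range_of_injective hinj hfin
    unfold Function.Injective at hni
    push Not at hni
    obtain ⟨m, n, he, hne⟩ := hni
    rcases Nat.lt_or_gt_of_ne hne with h | h
    · exact ⟨m, n, h, he⟩
    · exact ⟨n, m, h, he.symm⟩
  have a2 : aeval A (2 : ℤ[X]) = 2 := map_ofNat _ 2
  have hm : (aeval A (Chebyshev.C ℤ ((n : ℤ) + m)) - 2) *
      (aeval A (Chebyshev.C ℤ ((n : ℤ) - m)) - 2) = 0 := by
    have := congrArg (aeval A) (cheb_prod n m)
    rw [map_mul, map_sub, map_sub, map_pow, map_sub, he, sub_self, a2] at this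
    simpa using this
  refine ⟨(n + m) * (n - m), Nat.mul_pos (by omega) (by omega), ?_⟩
  have hcast : (((n + m) * (n - m) : ℕ) : ℤ) = ((n : ℤ) + m) * ((n : ℤ) - m) := by
    push_cast [Nat.cast_sub hmn.le]
    ring
  rw [hcast]
  set K := Chebyshev.C ℤ (((n : ℤ) + m) * ((n : ℤ) - m)) - 2 with hK
  have d1 : (Chebyshev.C ℤ ((n : ℤ) - m) - 2) ∣ K := by
    have := (cheb_dvd ((n : ℤ) - m) (n + m)).1
    rw [hK]
    push_cast at this
    exact this
  have d2 : (Chebyshev.C ℤ ((n : ℤ) + m) - 2) ∣ K := by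
    have := (cheb_dvd ((n : ℤ) + m) (n - m)).1
    rw [hK, mul_comm ((n : ℤ) + m)]
    push_cast [Nat.cast_sub hmn.le] at this
    exact this
  obtain ⟨f, hf⟩ := mul_dvd_mul d2 d1
  have hKK : aeval A K * aeval A K = 0 := by
    rw [← map_mul, hf, map_mul, map_mul, map_sub, map_sub, a2, hm, zero_mul]
  have sK : (aeval A K).transpose = aeval A K := aeval_symm symm _
  have hK0 : aeval A K = 0 := by
    ext v w
    have h1 : (aeval A K * aeval A K) w w = ∑ u, (aeval A K) u w ^ 2 := by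
      rw [Matrix.mul_apply]
      refine sum_congr rfl fun u _ => ?_
      have : (aeval A K) w u = (aeval A K) u w := by
        conv_lhs => rw [← sK]
        rfl
      rw [this, sq]
    rw [hKK] at h1
    have h2 := (sum_eq_zero_iff_of_nonneg (fun u _ => sq_nonneg ((aeval A K) u w))).mp
      (by rw [← h1]; rfl) v (mem_univ v)
    simpa using h2
  rw [hK, map_sub, a2] at hK0
  exact sub_eq_zero.mp hK0

/-- the action of integer matrices on vectors with entries in an abelian group -/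
def act {A : Type} [AddCommGroup A] (M : Matrix V V ℤ) (x : V → A) : V → A :=
  fun v => ∑ u, M v u • x u

omit [DecidableEq V] in
theorem act_mul {A : Type} [AddCommGroup A] (M M' : Matrix V V ℤ) (x : V → A) :
    act (M * M') x = act M (act M' x) := by
  funext v
  unfold act
  simp only [Matrix.mul_apply, sum_smul, smul_sum, mul_smul]
  exact sum_comm

omit [DecidableEq V] in
theorem act_sub {A : Type} [AddCommGroup A] (M M' : Matrix V V ℤ) (x : V → A) :
    act (M - M') x = act M x - act M' x := by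
  funext v
  simp only [act, Matrix.sub_apply, sub_smul, sum_sub_distrib, Pi.sub_apply]

omit [DecidableEq V] in
theorem act_add' {A : Type} [AddCommGroup A] (M : Matrix V V ℤ) (x y : V → A) :
    act M (x + y) = act M x + act M y := by
  funext v
  simp only [act, Pi.add_apply, smul_add, sum_add_distrib]

theorem act_two {A : Type} [AddCommGroup A] (x : V → A) :
    act (2 : Matrix V V ℤ) x = x + x := by
  funext v
  unfold act
  have : ∀ u, (2 : Matrix V V ℤ) v u • x u = if v = u then x u + x u else 0 := by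
    intro u
    have e : (2 : Matrix V V ℤ) v u = if v = u then 2 else 0 := by
      rw [Matrix.ofNat_apply]
      split_ifs <;> simp
    rw [e]
    split_ifs
    · exact two_smul ℤ _
    · exact zero_smul ℤ _
  rw [sum_congr rfl fun u _ => this u]
  simp

theorem act_AM {A : Type} [AddCommGroup A] (N : V → Finset V) (x : V → A) :
    act (AM N) x = fun v => ∑ u ∈ N v, x u := by
  funext v
  unfold act AM
  simp only [Matrix.of_apply, ite_smul, one_smul, zero_smul]
  rw [← sum_filter, filter_mem_eq_inter, univ_inter]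

theorem two_sided {A : Type} [AddCommGroup A] (N : V → Finset V) (L : ℕ → V → A)
    (hL : ∀ t v, L (t + 2) v + L t v = ∑ u ∈ N v, L (t + 1) u) (n : ℕ) :
    (∀ t, L (t + 2 * n) + L t = act (aeval (AM N) (Chebyshev.C ℤ n)) (L (t + n))) ∧
    (∀ t, L (t + 2 * (n + 1)) + L t =
      act (aeval (AM N) (Chebyshev.C ℤ (n + 1))) (L (t + (n + 1)))) := by
  have hL' : ∀ t, L (t + 2) + L t = act (AM N) (L (t + 1)) := by
    intro t
    rw [act_AM]
    funext v
    exact hL t v
  induction n with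
  | zero =>
    refine ⟨fun t => ?_, fun t => ?_⟩
    · have : aeval (AM N) (Chebyshev.C ℤ ((0 : ℕ) : ℤ)) = 2 := by
        rw [Nat.cast_zero, Chebyshev.C_zero]; exact map_ofNat _ 2
      rw [this, act_two]
      rfl
    · have : aeval (AM N) (Chebyshev.C ℤ (((0 : ℕ) : ℤ) + 1)) = AM N := by
        rw [Nat.cast_zero, zero_add, Chebyshev.C_one, aeval_X]
      rw [this]
      exact hL' t
  | succ n ih =>
    refine ⟨by push_cast; exact ih.2, fun t => ?_⟩
    have e : Chebyshev.C ℤ (((n + 1 : ℕ) : ℤ) + 1) =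
        X * Chebyshev.C ℤ ((n : ℤ) + 1) - Chebyshev.C ℤ n := by
      push_cast
      rw [show (n : ℤ) + 1 + 1 = n + 2 by ring]
      exact Chebyshev.C_add_two ℤ n
    rw [e, map_sub, map_mul, aeval_X, act_sub, act_mul]
    have h1 := ih.2 (t + 1)
    have h2 := ih.1 (t + 2)
    have h3 := hL' (t + 1 + 2 * (n + 1))
    have h4 := hL' t
    rw [show t + (n + 1 + 1) = t + 1 + (n + 1) by ring, ← h1, act_add']
    rw [show t + 1 + (n + 1) = t + 2 + n by ring, ← h2]
    have e1 : t + 1 + 2 * (n + 1) = (t + 2 * (n + 1)) + 1 := by ring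
    have h5 := hL' (t + 2 * (n + 1))
    rw [e1, ← h5, ← h4]
    rw [show t + 2 * (n + 1) + 2 = t + 2 * (n + 1 + 1) by ring,
      show t + 2 * (n + 1) = t + 2 + 2 * n by ring]
    abel

omit [DecidableEq V] in
/-- (M1) linear part -/
theorem exists_period (N : V → Finset V) (symm : ∀ u v, u ∈ N v → v ∈ N u)
    (d : V → ℤ) (hd : ∀ v, 0 < d v) (h2 : ∀ v, ∑ u ∈ N v, d u = 2 * d v) :
    ∃ n : ℕ, 0 < n ∧ Even n ∧ ∀ {A : Type} [AddCommGroup A] (L : ℕ → V → A),
      (∀ t v, L (t + 2) v + L t v = ∑ u ∈ N v, L (t + 1) u) →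
      ∀ t v, L (t + 2 * n) v + L t v = 2 • L (t + n) v := by
  classical
  obtain ⟨n, hn, hC⟩ := exists_cheb_two symm d hd h2
  have a2 : aeval (AM N) (2 : ℤ[X]) = 2 := map_ofNat _ 2
  have hC2 : aeval (AM N) (Chebyshev.C ℤ ((n + n : ℕ) : ℤ)) = 2 := by
    have h := congrArg (aeval (AM N)) (Chebyshev.C_mul_C (R := ℤ) (n : ℤ) n)
    rw [sub_self, Chebyshev.C_zero, map_mul, map_add, hC, a2] at h
    push_cast
    have h3 : (2 : Matrix V V ℤ) * 2 = 2 + 2 := by noncomm_ring
    rw [h3] at h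
    exact (add_right_cancel h).symm
  refine ⟨n + n, by omega, ⟨n, rfl⟩, ?_⟩
  intro A _ L hL t v
  have h := congrFun ((two_sided N L hL (n + n)).1 t) v
  rw [hC2, act_two] at h
  rw [two_smul]
  exact h

end Pool.Agent.H49.TSD
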