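import Mathlib

/-!
# The tropical evolution (M3)
-/

namespace Pool.Agent.H49.TSD

/-- (M3) the tropical evolution: a solution with `f 0 = 0 ≠ f 1` is finally linear with negative
slope and negative values. -/
theorem exists_linear (lam : ℝ) (_h0 : 0 ≤ lam) (h2 : lam < 2) (f : ℕ → ℝ) (hf0 : f 0 = 0)
    (hf1 : f 1 ≠ 0) (hf : ∀ t, f (t + 2) + f t = min (2 * f (t + 1)) (lam * f (t + 1))) :
    ∃ (t0 : ℕ) (p : ℝ), 0 < p ∧ f t0 < 0 ∧ ∀ t, f (t0 + t) = f t0 - p * t := by
  -- once `f (T+1) ≤ 0` and `f (T+1) < f T`, everything is linear
  have key : ∀ T : ℕ, f (T + 1) ≤ 0 → f (T + 1) < f T →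
      ∃ (t0 : ℕ) (p : ℝ), 0 < p ∧ f t0 < 0 ∧ ∀ t, f (t0 + t) = f t0 - p * t := by
    intro T h1 h3
    have neg : ∀ t, f (t + 1) ≤ 0 → f (t + 2) = 2 * f (t + 1) - f t := by
      intro t ht
      have := hf t
      rw [min_eq_left (by nlinarith)] at this
      linarith
    have all : ∀ t : ℕ, f (T + 1 + t) ≤ 0 ∧ f (T + 1 + t) - f (T + t) = f (T + 1) - f T := by
      intro t
      induction t with
      | zero => simpa using h1
      | succ t ih =>
        obtain ⟨i1, i2⟩ := ih
        have e := neg (T + t) (by rw [show T + t + 1 = T + 1 + t by ring]; exact i1)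
        rw [show T + t + 2 = T + 1 + (t + 1) by ring, show T + t + 1 = T + 1 + t by ring] at e
        have e2 : f (T + 1 + (t + 1)) - f (T + (t + 1)) = f (T + 1) - f T := by
          rw [e, show T + (t + 1) = T + 1 + t by ring]; linarith
        refine ⟨?_, e2⟩
        rw [show T + (t + 1) = T + 1 + t by ring] at e2
        linarith
    refine ⟨T + 2, f T - f (T + 1), by linarith, ?_, ?_⟩
    · have := (all 1).2
      rw [show T + 1 + 1 = T + 2 by ring] at this
      linarith
    · intro t
      induction t with
      | zero => simp
      | succ t ih =>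
        have := (all (t + 2)).2
        rw [show T + 1 + (t + 2) = T + 2 + (t + 1) by ring, show T + (t + 2) = T + 2 + t by ring,
          ih] at this
        push_cast
        linarith
  by_cases hneg : f 1 < 0
  · exact key 0 (by simpa using hneg.le) (by rw [hf0]; simpa using hneg)
  have hpos : 0 < f 1 := lt_of_le_of_ne (not_lt.mp hneg) (Ne.symm hf1)
  by_cases hall : ∀ t, 0 < f (t + 1)
  · exfalso
    have hrec : ∀ t, f (t + 2) - f (t + 1) = f (t + 1) - f t - (2 - lam) * f (t + 1) := by
      intro t
      have h := hf t
      have h3 := hall t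
      rw [min_eq_right (by nlinarith)] at h
      linarith
    have nn : ∀ t, 0 ≤ f t := by
      intro t
      cases t with
      | zero => rw [hf0]
      | succ t => exact (hall t).le
    -- the increments are nonnegative
    have inc : ∀ t, 0 ≤ f (t + 1) - f t := by
      intro t
      by_contra hc
      push Not at hc
      have step : ∀ s : ℕ, f (t + s + 1) - f (t + s) ≤ f (t + 1) - f t := by
        intro s
        induction s with
        | zero => simp
        | succ s ih =>
          have := hrec (t + s)
          have h5 := hall (t + s)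
          have h6 : 0 ≤ (2 - lam) * f (t + s + 1) := mul_nonneg (by linarith) h5.le
          rw [show t + (s + 1) + 1 = t + s + 2 by ring, show t + (s + 1) = t + s + 1 by ring]
          linarith
      have lin : ∀ s : ℕ, f (t + s) ≤ f t + s * (f (t + 1) - f t) := by
        intro s
        induction s with
        | zero => simp
        | succ s ih =>
          have := step s
          rw [show t + (s + 1) = t + s + 1 by ring]
          push_cast
          linarith
      obtain ⟨s, hs⟩ := exists_nat_gt (f t / (-(f (t + 1) - f t)))
      have h7 := lin s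
      have h8 := nn (t + s)
      rw [div_lt_iff₀ (by linarith)] at hs
      linarith
    have mono : ∀ t, f 1 ≤ f (t + 1) := by
      intro t
      induction t with
      | zero => simp
      | succ t ih =>
        have := inc (t + 1)
        rw [show t + 1 + 1 = t + 1 + 1 by ring] at this
        linarith
    have dec : ∀ t : ℕ, f (t + 1) - f t ≤ f 1 - (2 - lam) * f 1 * t := by
      intro t
      induction t with
      | zero => simp [hf0]
      | succ t ih =>
        have h9 := hrec t
        have h10 : (2 - lam) * f 1 ≤ (2 - lam) * f (t + 1) :=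
          mul_le_mul_of_nonneg_left (mono t) (by linarith)
        rw [show t + 1 + 1 = t + 2 by ring]
        push_cast
        linarith
    have hc : 0 < (2 - lam) * f 1 := mul_pos (by linarith) hpos
    obtain ⟨s, hs⟩ := exists_nat_gt (f 1 / ((2 - lam) * f 1))
    rw [div_lt_iff₀ hc] at hs
    have := dec s
    have := inc s
    nlinarith
  · push Not at hall
    classical
    have hex : ∃ t, f (t + 1) ≤ 0 := hall
    obtain ⟨T, hT, hmin⟩ := Nat.find_spec hex |> fun h => (⟨Nat.find hex, h, fun m hm =>
      Nat.find_min hex hm⟩ : ∃ T, f (T + 1) ≤ 0 ∧ ∀ m < T, ¬ f (m + 1) ≤ 0)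
    cases T with
    | zero => simp at hT; linarith
    | succ T =>
      have h11 := hmin T (Nat.lt_succ_self T)
      push Not at h11
      exact key (T + 1) hT (by linarith)

end Pool.Agent.H49.TSD
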